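import Pool.Agent.Work.MP_054302_co.Y.Final

theorem Pool.Agent.Work.MP_054302_co.Parked.gapsOld :
    ∀ k l l' : ℕ, 1 ≤ k → k ≤ l →
      (l : ℝ) + 6 * Real.sqrt (l' : ℝ) + 16 * ((l' : ℝ) / (k : ℝ)) ^ 2 ≤ (l' : ℝ) →
      ∀ᶠ n : ℕ in Filter.atTop,
        Nd4bc9c34.minExtremalNumber n k l < Nd4bc9c34.minExtremalNumber n k l' :=
  Pool.Agent.Work.MP_054302_co.Y.gaps
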