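import Pool.Agent.Work.MP_054302_co.Steps

theorem Pool.Agent.Work.MP_054302_co.Parked.upToSevenOld :
    (∀ k : ℕ, k ≤ 7 → ∀ᶠ n : ℕ in Filter.atTop,
      StrictMonoOn (Nd4bc9c34.minExtremalNumber n k) (Set.Ioc k (k ^ 2 / 4))) ∧
    (∀ k : ℕ, 6 ≤ k → ∀ᶠ n : ℕ in Filter.atTop,
      Nd4bc9c34.minExtremalNumber n k (k ^ 2 / 4 - 1) <
        Nd4bc9c34.minExtremalNumber n k (k ^ 2 / 4)) :=
  ⟨fun _ hk => Pool.Agent.Work.MP_054302_co.small hk,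
    fun _ hk => Pool.Agent.Work.MP_054302_co.top_step (by omega)⟩
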